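import Pool.Agent.Lib.MP_b5021c_nt.IfaceK1

/-! # BOU: bounds for the coefficients of a `BP` sequence -/

namespace Pool.Agent.MP_b5021c_nt.H38

open Pool.Agent.MP_b5021c_nt

theorem bou : BouS := by
  intro a c t h hbp j
  obtain ⟨ht, ha, hs, hle⟩ := hbp
  have ht0 : 0 < t := by linarith
  have ht2 : 0 < t ^ 2 - 1 := by nlinarith
  have hsum0 : 0 ≤ ∑' j, h j ^ 2 := tsum_nonneg fun j => sq_nonneg _
  have hc0 : 0 ≤ c ^ 2 / (t ^ 2 - 1) := by positivity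
  have hj : h j ^ 2 ≤ ∑' j, h j ^ 2 := hs.le_tsum j fun i _ => sq_nonneg _
  have hj1 : h j ^ 2 ≤ 1 := by linarith
  have hj2 : |h j| ≤ 1 := by
    rw [← sq_le_one_iff_abs_le_one]; exact hj1
  have hc1 : c ^ 2 ≤ t ^ 2 - 1 := by
    have : c ^ 2 / (t ^ 2 - 1) ≤ 1 := by linarith
    rwa [div_le_one ht2] at this
  have hc2 : |c| ≤ t := by
    have : c ^ 2 ≤ t ^ 2 := by linarith
    exact abs_le_of_sq_le_sq this ht0.le
  calc |(a j : ℝ)| = |c * t ^ j + h j| := by rw [ha j]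
    _ ≤ |c * t ^ j| + |h j| := abs_add_le _ _
    _ = |c| * t ^ j + |h j| := by rw [abs_mul, abs_of_pos (pow_pos ht0 j)]
    _ ≤ t * t ^ j + 1 := by
        have := pow_pos ht0 j
        nlinarith
    _ = t ^ (j + 1) + 1 := by ring

end Pool.Agent.MP_b5021c_nt.H38
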